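import Mathlib.Data.Nat.Log
import Mathlib.Data.Real.Basic
import Pool.Agent.Helper51.ZP.Defs

/-!
# Circuits with a small output gate over decision lists of CNFs

Turing machines are Mathlib's multi-stack machines; `PolyTimeComputable` is in
`Pool.Agent.Helper81.CxDefs`, the coding `encOf` of structured data (with numbers in unary) is in
`Pool.Agent.Helper81.CxData`, and `InP` is in `Pool.Agent.Helper51.ZP.Defs`.
-/

namespace Pool.Agent.Helper78.JT

open Pool.Agent.Helper81.CC

/-- A clause, as a list of literals `(v, b)`, each of which stands for the condition that the
variable `v` has the value `b`. -/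
abbrev Clause := List (ℕ × Bool)

/-- A decision list whose tests are CNFs (lists of clauses), with labels. -/
abbrev CList := List (List Clause × Bool)

/-- A circuit, as data: the number of its variables, a list of decision lists, and the truth table
of the output gate. -/
abbrev Circuit := ℕ × List CList × List Bool

/-- The value of the variable `v` (`false` if there is no such variable). -/
def coin {n : ℕ} (r : Fin n → Bool) (v : ℕ) : Bool := if h : v < n then r ⟨v, h⟩ else false

/-- The assignment `r` satisfies the CNF `F`: every clause has a true literal. -/
def Holds {n : ℕ} (r : Fin n → Bool) (F : List Clause) : Prop := ∀ C ∈ F, ∃ p ∈ C, coin r p.1 = p.2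

instance {n : ℕ} (r : Fin n → Bool) (F : List Clause) : Decidable (Holds r F) := by
  unfold Holds; infer_instance

/-- The value of a decision list: the label of the first satisfied CNF, and `false` if there is
none. -/
def val {n : ℕ} (r : Fin n → Bool) : CList → Bool
  | [] => false
  | e :: f => if Holds r e.1 then e.2 else val r f

/-- The number whose binary digits are the values of the decision lists (the first one is the lowest
digit). -/
def idx {n : ℕ} (r : Fin n → Bool) : List CList → ℕ
  | [] => 0
  | f :: l => (if val r f = true then 1 else 0) + 2 * idx r l

/-- The output of the circuit. -/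
def out (z : Circuit) (r : Fin z.1 → Bool) : Bool := z.2.2.getD (idx r z.2.1) false

/-- The number of the assignments with the output `true`. -/
noncomputable def cnt (z : Circuit) : ℕ := Nat.card {r : Fin z.1 → Bool // out z r = true}

/-- The size of a decision list: the number of its tests, of their clauses, and of the literals. -/
def lsize (f : CList) : ℕ := (f.map fun e => 1 + (e.1.map fun C => 1 + C.length).sum).sum

/-- The size of a circuit: the number of its variables, of the decision lists, of their tests, of
the clauses, of the literals, and the length of the truth table. -/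
def size (z : Circuit) : ℕ := z.1 + (z.2.1.map fun f => 1 + lsize f).sum + z.2.2.length

/-- Each CNF in the circuit has at most `k (log₂ N + 1)` clauses with more than `k` literals, where
`N` is the size of the circuit. -/
def Narrow (k : ℕ) (z : Circuit) : Prop := ∀ f ∈ z.2.1, ∀ e ∈ f,
  (e.1.filter fun C => decide (k < C.length)).length ≤ k * (Nat.log 2 (size z) + 1)

/-- Approximate counting: a deterministic polynomial-time function `f` gives, for each circuit `z`
of any size `N` with at most `(log₂ N + 2) ^ (e / (e + 1))` decision lists, all of whose CNFs have
at most `k (log₂ N + 1)` clauses with more than `k` literals, the fraction of the assignments with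
the output `true`, up to the additive error `1 / (log₂ N + 2) ^ c`. -/
def Counts (c k e : ℕ) : Prop :=
  ∃ f : Circuit → ℕ, PolyTimeComputable (encOf Circuit) (encOf ℕ) f ∧ ∀ z, Narrow k z →
    z.2.1.length ^ (e + 1) ≤ (Nat.log 2 (size z) + 2) ^ e →
    |(f z : ℝ) / (Nat.log 2 (size z) + 2 : ℕ) ^ c - (cnt z : ℝ) / 2 ^ z.1| ≤
      1 / (Nat.log 2 (size z) + 2 : ℕ) ^ c

/-- `L` is decided with gap `1 / (log₂ n + 2) ^ c` by randomized circuits of this kind: for some
circuit `D x` and some number `g x`, both computable in polynomial time from `x`, the probability
that the random assignment gives the output `true` is at least `(g x + 1) / (log₂ |x| + 2) ^ c` if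
`x ∈ L`, and at most `g x / (log₂ |x| + 2) ^ c` if `x ∉ L`. -/
def Decided (c k e : ℕ) (L : Set (List Bool)) : Prop :=
  ∃ (D : List Bool → Circuit) (g : List Bool → ℕ),
    PolyTimeComputable (encOf (List Bool)) (encOf Circuit) D ∧
    PolyTimeComputable (encOf (List Bool)) (encOf ℕ) g ∧
    (∀ x, Narrow k (D x) ∧ (D x).2.1.length ^ (e + 1) ≤ (Nat.log 2 x.length + 2) ^ e) ∧
    (∀ x ∈ L, (g x + 1) * 2 ^ (D x).1 ≤ (Nat.log 2 x.length + 2) ^ c * cnt (D x)) ∧
    (∀ x, x ∉ L → (Nat.log 2 x.length + 2) ^ c * cnt (D x) ≤ g x * 2 ^ (D x).1)

end Pool.Agent.Helper78.JT
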