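import Pool.Agent.Helper78.JT.Goals3
import Pool.Agent.Helper48.DT.DLM

/-!
# Circuits as tuples of decision lists

Adapted from `Pool.Agent.Helper2.JT.CKL` (by helper2, for one budget).
-/

namespace Pool.Agent.Helper78.JT

open Pool.Agent.Helper81.CC Pool.Agent.Helper78.DT
open scoped Classical

/-- The term of the values of `x` at the names `< n` in `Q`. -/
noncomputable def TX {n : ℕ} (Q : List ℕ) (x : Fin n → Bool) : Tm (Fin n) :=
  Finset.univ.filter fun p : Fin n × Bool => (p.1 : ℕ) ∈ Q ∧ x p.1 = p.2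

theorem mem_TX {n : ℕ} (Q : List ℕ) (x : Fin n → Bool) (p : Fin n × Bool) :
    p ∈ TX Q x ↔ (p.1 : ℕ) ∈ Q ∧ x p.1 = p.2 := by
  simp [TX]

theorem sat_TX {n : ℕ} (Q : List ℕ) (x y : Fin n → Bool) :
    Sat (TX Q x) y ↔ ∀ v : Fin n, (v : ℕ) ∈ Q → y v = x v := by
  constructor
  · intro h v hv
    exact h (v, x v) ((mem_TX Q x _).2 ⟨hv, rfl⟩)
  · intro h p hp
    obtain ⟨h1, h2⟩ := (mem_TX Q x p).1 hp
    rw [h p.1 h1, h2]

theorem cf_eq {n : ℕ} (Q : List ℕ) (x y : Fin n → Bool) (h : Sat (TX Q x) y) :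
    ∀ v ∈ Q, cf x v = cf y v := by
  intro v hv
  unfold cf
  by_cases hn : v < n
  · rw [dif_pos hn, dif_pos hn]
    exact ((sat_TX Q x y).1 h ⟨v, hn⟩ hv).symm
  · rw [dif_neg hn, dif_neg hn]

theorem TX_self {n : ℕ} (Q : List ℕ) (x : Fin n → Bool) : Sat (TX Q x) x :=
  (sat_TX Q x x).2 fun _ _ => rfl

theorem card_TX_filter {n : ℕ} (Q : List ℕ) (x : Fin n → Bool) (q : ℕ → Prop)
    [DecidablePred q] :
    ((TX Q x).filter fun p => q p.1).card
      = (((Q.filter fun v => decide (v < n)).dedup).filter fun v => decide (q v)).length := by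
  have hnd : (((Q.filter fun v => decide (v < n)).dedup).filter fun v => decide (q v)).Nodup :=
    (List.nodup_dedup _).filter _
  rw [← List.toFinset_card_of_nodup hnd]
  refine Finset.card_bij (fun p _ => (p.1 : ℕ)) ?_ ?_ ?_
  · intro p hp
    obtain ⟨h1, h2⟩ := Finset.mem_filter.1 hp
    obtain ⟨h3, _⟩ := (mem_TX Q x p).1 h1
    rw [List.mem_toFinset, List.mem_filter, List.mem_dedup, List.mem_filter]
    exact ⟨⟨h3, by simp⟩, by simpa using h2⟩
  · intro p hp p' hp' h
    have h1 := ((mem_TX Q x p).1 (Finset.mem_filter.1 hp).1).2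
    have h2 := ((mem_TX Q x p').1 (Finset.mem_filter.1 hp').1).2
    have h3 : p.1 = p'.1 := Fin.ext h
    exact Prod.ext h3 (by rw [← h1, ← h2, h3])
  · intro v hv
    rw [List.mem_toFinset, List.mem_filter, List.mem_dedup, List.mem_filter] at hv
    obtain ⟨⟨hv, hn⟩, hq⟩ := hv
    have hn' : v < n := of_decide_eq_true hn
    refine ⟨(⟨v, hn'⟩, x ⟨v, hn'⟩), ?_, rfl⟩
    rw [Finset.mem_filter, mem_TX]
    exact ⟨⟨hv, rfl⟩, by simpa using hq⟩

theorem card_TX {n : ℕ} (Q : List ℕ) (x : Fin n → Bool) : (TX Q x).card ≤ Q.length := by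
  have h := card_TX_filter Q x (fun _ => True)
  simp only [Finset.filter_true, decide_true, List.filter_true] at h
  rw [h]
  exact ((List.dedup_sublist _).length_le).trans (List.length_filter_le _ _)

theorem bal_TX {n : ℕ} (K t : ℕ) (h : ℕ → ℕ) (Q : List ℕ) (x : Fin n → Bool) (c : Bool) :
    bal K t h (TX Q x, c) = okq n K t h Q := by
  rw [Bool.eq_iff_iff]
  unfold bal okq
  rw [decide_eq_true_eq, List.all_eq_true]
  constructor
  · intro h1 j hj
    have h2 := h1 j (List.mem_range.1 hj)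
    have h3 := card_TX_filter Q x (fun v => h v = j)
    simp only at h2
    rw [decide_eq_true_eq]
    omega
  · intro h1 j hj
    have h2 := h1 j (List.mem_range.2 hj)
    have h3 := card_TX_filter Q x (fun v => h v = j)
    simp only at h2 ⊢
    rw [decide_eq_true_eq] at h2
    omega

/-- The list of the terms of one test, with the same label. -/
noncomputable def GF (n k s s' : ℕ) (F : List Clause) (c : Bool) : DL (Fin n) :=
  ((Finset.univ.filter fun x : Fin n → Bool => (scan n k (cf x) F s s' []).isSome = true).image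
    fun x => TX ((scan n k (cf x) F s s' []).getD []) x).toList.map fun T => (T, c)

theorem mem_GF (n k s s' : ℕ) (F : List Clause) (c : Bool) (e : Tm (Fin n) × Bool) :
    e ∈ GF n k s s' F c ↔ ∃ (x : Fin n → Bool) (Q : List ℕ), scan n k (cf x) F s s' [] = some Q ∧
      e = (TX Q x, c) := by
  unfold GF
  rw [List.mem_map]
  constructor
  · rintro ⟨T, hT, rfl⟩
    rw [Finset.mem_toList, Finset.mem_image] at hT
    obtain ⟨x, hx, rfl⟩ := hT
    obtain ⟨Q, hQ⟩ := Option.isSome_iff_exists.1 (Finset.mem_filter.1 hx).2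
    exact ⟨x, Q, hQ, by rw [hQ]; rfl⟩
  · rintro ⟨x, Q, hQ, rfl⟩
    refine ⟨TX Q x, ?_, rfl⟩
    rw [Finset.mem_toList, Finset.mem_image]
    exact ⟨x, Finset.mem_filter.2 ⟨Finset.mem_univ _, by rw [hQ]; rfl⟩, by rw [hQ]; rfl⟩

/-- The decision list of a list of tests. -/
noncomputable def GG (n k s s' : ℕ) (f : CList) : DL (Fin n) := f.flatMap fun e => GF n k s s' e.1 e.2

theorem ex_iff (hS : CksStmt) (n k s s' K t : ℕ) (h : ℕ → ℕ) (F : List Clause) (c : Bool)
    (b : Fin n → Bool) :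
    (∃ e ∈ (GF n k s s' F c).filter (bal K t h), Sat e.1 b) ↔
      ∃ Q, scan n k (cf b) F s s' [] = some Q ∧ okq n K t h Q = true := by
  constructor
  · rintro ⟨e, he, hs⟩
    obtain ⟨h1, h2⟩ := List.mem_filter.1 he
    obtain ⟨x, Q, hQ, rfl⟩ := (mem_GF n k s s' F c e).1 h1
    refine ⟨Q, ((hS n k F s s' [] Q x b).2.2 hQ (cf_eq Q x b hs)), ?_⟩
    rwa [bal_TX] at h2
  · rintro ⟨Q, hQ, hk⟩
    refine ⟨(TX Q b, c), ?_, TX_self Q b⟩
    rw [List.mem_filter]
    exact ⟨(mem_GF n k s s' F c _).2 ⟨b, Q, hQ, rfl⟩, by rw [bal_TX]; exact hk⟩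

theorem ev_GG (hS : CksStmt) (n k s s' K t : ℕ) (h : ℕ → ℕ) (b : Fin n → Bool) (f : CList) :
    ev ((GG n k s s' f).filter (bal K t h)) b = vlK n k s s' K t h (cf b) f := by
  induction f with
  | nil => simp [GG, ev, vlK]
  | cons e f ih =>
    have h1 : GG n k s s' (e :: f) = GF n k s s' e.1 e.2 ++ GG n k s s' f := by
      unfold GG
      rw [List.flatMap_cons]
    rw [h1, List.filter_append, Pool.Agent.Helper48.DT.ev_append b e.2 _ _ ?_, ih]
    · rcases hsc : scan n k (cf b) e.1 s s' [] with _ | Q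
      · rw [if_neg]
        · simp only [vlK, hsc]
        · rw [ex_iff hS]
          rintro ⟨Q, hQ, _⟩
          rw [hsc] at hQ
          exact absurd hQ (by simp)
      · by_cases hk : okq n K t h Q = true
        · rw [if_pos ((ex_iff hS n k s s' K t h e.1 e.2 b).2 ⟨Q, hsc, hk⟩)]
          simp only [vlK, hsc, hk, if_true]
        · rw [if_neg]
          · simp only [vlK, hsc]
            rw [if_neg hk]
          · rw [ex_iff hS]
            rintro ⟨Q', hQ', hk'⟩
            rw [hsc] at hQ'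
            exact hk (by rw [Option.some.inj hQ']; exact hk')
    · intro e' he' _
      obtain ⟨h2, _⟩ := List.mem_filter.1 he'
      obtain ⟨x, Q, _, rfl⟩ := (mem_GF n k s s' e.1 e.2 e').1 h2
      rfl

theorem ixK_eq (n k s s' K t : ℕ) (h : ℕ → ℕ) (b : ℕ → Bool) (l : List CList) :
    ixK n k s s' K t h b l = ∑ j : Fin l.length, if vlK n k s s' K t h b (l.get j) = true then
      2 ^ (j : ℕ) else 0 := by
  induction l with
  | nil => simp [ixK]
  | cons f l ih =>
    rw [ixK, ih]
    have h1 : (∑ j : Fin (f :: l).length, if vlK n k s s' K t h b ((f :: l).get j) = true then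
        2 ^ (j : ℕ) else 0) = (∑ j : Fin (l.length + 1), if vlK n k s s' K t h b ((f :: l).get j) = true
          then 2 ^ (j : ℕ) else 0) := rfl
    rw [h1, Fin.sum_univ_succ, Finset.mul_sum]
    congr 1
    refine Finset.sum_congr rfl fun j _ => ?_
    simp only [List.get_eq_getElem, Fin.val_succ, List.getElem_cons_succ]
    split_ifs
    · ring
    · rfl

theorem ckl (hS : CksStmt) : CklStmt := by
  intro z k s s'
  refine ⟨fun j => GG z.1 k s s' (z.2.1.get j), fun v => z.2.2.getD (∑ j, if v j = true then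
    2 ^ (j : ℕ) else 0) false, ?_, ?_⟩
  · intro j e he
    obtain ⟨e', he', h1⟩ := List.mem_flatMap.1 he
    obtain ⟨x, Q, hQ, rfl⟩ := (mem_GF z.1 k s s' e'.1 e'.2 e).1 h1
    have h2 := (hS z.1 k e'.1 s s' [] Q x x).2.1 hQ
    simp only [List.length_nil, Nat.add_zero] at h2
    exact (card_TX Q x).trans h2
  · intro b h K t
    simp only [ev_GG hS]
    unfold outK
    rw [ixK_eq]

end Pool.Agent.Helper78.JT
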