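import Pool.Agent.Helper78.JT.Goals3

/-!
# Properties of the reading procedure for CNFs

Adapted from `Pool.Agent.Helper41.JT.CKS` (proofs by helper41 for one budget).
-/

namespace Pool.Agent.Helper78.JT

open Pool.Agent.Helper78.DT
open scoped Classical

theorem known_true {n : ℕ} (r : Fin n → Bool) (Q : List ℕ) (C : Clause)
    (h : known n (cf r) Q C = true) : ∃ p ∈ C, coin r p.1 = p.2 := by
  unfold known opp at h
  rw [Bool.or_eq_true, List.any_eq_true, List.any_eq_true] at h
  rcases h with ⟨p, hp, hq⟩ | ⟨p, hp, hq⟩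
  · have hq' : (p.1, !p.2) ∈ C := by simpa using hq
    by_cases hc : coin r p.1 = p.2
    · exact ⟨p, hp, hc⟩
    · refine ⟨(p.1, !p.2), hq', ?_⟩
      show coin r p.1 = !p.2
      revert hc
      cases coin r p.1 <;> cases p.2 <;> simp
  · rw [Bool.and_eq_true, decide_eq_true_iff] at hq
    exact ⟨p, hp, hq.1⟩

theorem rdl_cons (n : ℕ) (b : ℕ → Bool) (p : ℕ × Bool) (C : Clause) (s : ℕ) (Q : List ℕ) :
    rdl n b (p :: C) s Q =
      if p.1 ∈ Q ∨ n ≤ p.1 then
        if b p.1 = p.2 then some (s, Q) else rdl n b C s Q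
      else if s = 0 then none
      else if b p.1 = p.2 then some (s - 1, p.1 :: Q)
      else rdl n b C (s - 1) (p.1 :: Q) := by
  rw [rdl]

theorem scan_cons (n k : ℕ) (b : ℕ → Bool) (C : Clause) (F : List Clause) (s s' : ℕ)
    (Q : List ℕ) :
    scan n k b (C :: F) s s' Q =
      if known n b Q C = true then scan n k b F s s' Q
      else if C.length ≤ k then
        if s = 0 then none
        else if (C.any fun p => decide (b p.1 = p.2)) = true then
          scan n k b F (s - 1) s' (C.map Prod.fst ++ Q)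
        else none
      else
        match rdl n b C s' Q with
        | some (u, Q') => scan n k b F s u Q'
        | none => none := by
  rw [scan]
  split_ifs <;> rfl

theorem rdl_true (n : ℕ) (b : ℕ → Bool) (C : Clause) :
    ∀ (s : ℕ) (Q : List ℕ) (u : ℕ) (Q' : List ℕ), rdl n b C s Q = some (u, Q') →
      (∃ p ∈ C, b p.1 = p.2) ∧ Q'.length + u ≤ s + Q.length ∧ (∀ v ∈ Q, v ∈ Q') := by
  induction C with
  | nil => intro s Q u Q' h; simp [rdl] at h
  | cons p C ih =>
    intro s Q u Q' h
    rw [rdl_cons] at h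
    split_ifs at h with h1 h2 h3 h4
    · cases h
      exact ⟨⟨p, List.mem_cons_self .., h2⟩, by omega, fun v hv => hv⟩
    · obtain ⟨⟨q, hq, hq'⟩, h5, h6⟩ := ih s Q u Q' h
      exact ⟨⟨q, List.mem_cons_of_mem _ hq, hq'⟩, h5, h6⟩
    · cases h
      refine ⟨⟨p, List.mem_cons_self .., h4⟩, ?_, fun v hv => List.mem_cons_of_mem _ hv⟩
      rw [List.length_cons]
      omega
    · obtain ⟨⟨q, hq, hq'⟩, h5, h6⟩ := ih (s - 1) (p.1 :: Q) u Q' h
      rw [List.length_cons] at h5
      exact ⟨⟨q, List.mem_cons_of_mem _ hq, hq'⟩, by omega,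
        fun v hv => h6 v (List.mem_cons_of_mem _ hv)⟩

theorem cf_ge {n : ℕ} (r : Fin n → Bool) {v : ℕ} (h : n ≤ v) : cf r v = false := by
  unfold cf
  rw [dif_neg (by omega)]

theorem rdl_congr {n : ℕ} (r r' : Fin n → Bool) (C : Clause) :
    ∀ (s : ℕ) (Q : List ℕ) (u : ℕ) (Q' : List ℕ), rdl n (cf r) C s Q = some (u, Q') →
      (∀ v ∈ Q', cf r v = cf r' v) → rdl n (cf r') C s Q = some (u, Q') := by
  induction C with
  | nil => intro s Q u Q' h; simp [rdl] at h
  | cons p C ih =>
    intro s Q u Q' h hv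
    have hQ : ∀ v ∈ Q, cf r v = cf r' v := fun v hvQ =>
      hv v ((rdl_true n (cf r) (p :: C) s Q u Q' h).2.2 v hvQ)
    rw [rdl_cons] at h ⊢
    by_cases h1 : p.1 ∈ Q ∨ n ≤ p.1
    · rw [if_pos h1] at h ⊢
      have hp : cf r p.1 = cf r' p.1 := by
        rcases h1 with h1 | h1
        · exact hQ _ h1
        · rw [cf_ge r h1, cf_ge r' h1]
      rw [← hp]
      split_ifs at h ⊢ with h2
      · exact h
      · exact ih s Q u Q' h hv
    · rw [if_neg h1] at h ⊢
      by_cases h3 : s = 0
      · rw [if_pos h3] at h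
        cases h
      · rw [if_neg h3] at h ⊢
        have hp : cf r p.1 = cf r' p.1 := by
          split_ifs at h with h4
          · cases h
            exact hv _ (List.mem_cons_self ..)
          · exact hv _ ((rdl_true n (cf r) C (s - 1) (p.1 :: Q) u Q' h).2.2 _
              (List.mem_cons_self ..))
        rw [← hp]
        split_ifs at h ⊢ with h4
        · exact h
        · exact ih (s - 1) (p.1 :: Q) u Q' h hv

theorem scan_holds {n k : ℕ} (r : Fin n → Bool) (F : List Clause) :
    ∀ (s s' : ℕ) (Q Q' : List ℕ), scan n k (cf r) F s s' Q = some Q' → Holds r F := by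
  induction F with
  | nil => intro s s' Q Q' _ C hC; simp at hC
  | cons C F ih =>
    intro s s' Q Q' h
    rw [scan_cons] at h
    have key : (∃ p ∈ C, coin r p.1 = p.2) → Holds r F → Holds r (C :: F) := by
      intro h1 h2 D hD
      rcases List.mem_cons.mp hD with rfl | hD
      · exact h1
      · exact h2 D hD
    split_ifs at h with h1 h2 h3 h4
    · exact key (known_true r Q _ h1) (ih s s' Q Q' h)
    · rw [List.any_eq_true] at h4
      obtain ⟨p, hp, hq⟩ := h4
      exact key ⟨p, hp, of_decide_eq_true hq⟩ (ih _ _ _ Q' h)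
    · rcases hr : rdl n (cf r) C s' Q with _ | ⟨u, Q1⟩
      · rw [hr] at h
        cases h
      · rw [hr] at h
        exact key (rdl_true n (cf r) C s' Q u Q1 hr).1 (ih _ _ _ Q' h)

theorem scan_len {n : ℕ} (b : ℕ → Bool) (k : ℕ) (F : List Clause) :
    ∀ (s s' : ℕ) (Q Q' : List ℕ), scan n k b F s s' Q = some Q' →
      Q'.length ≤ k * s + s' + Q.length := by
  induction F with
  | nil =>
    intro s s' Q Q' h
    rw [scan] at h
    cases h
    omega
  | cons C F ih =>
    intro s s' Q Q' h
    rw [scan_cons] at h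
    split_ifs at h with h1 h2 h3 h4
    · exact ih s s' Q Q' h
    · have h5 := ih _ _ _ Q' h
      rw [List.length_append, List.length_map] at h5
      obtain ⟨t, rfl⟩ : ∃ t, s = t + 1 := ⟨s - 1, by omega⟩
      rw [Nat.add_sub_cancel] at h5
      rw [Nat.mul_succ]
      omega
    · rcases hr : rdl n b C s' Q with _ | ⟨u, Q1⟩
      · rw [hr] at h
        cases h
      · rw [hr] at h
        have h5 := (rdl_true n b C s' Q u Q1 hr).2.1
        have h6 := ih _ _ _ Q' h
        omega

theorem scan_sub {n k : ℕ} (b : ℕ → Bool) (F : List Clause) :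
    ∀ (s s' : ℕ) (Q Q' : List ℕ), scan n k b F s s' Q = some Q' → ∀ v ∈ Q, v ∈ Q' := by
  induction F with
  | nil =>
    intro s s' Q Q' h v hv
    rw [scan] at h
    cases h
    exact hv
  | cons C F ih =>
    intro s s' Q Q' h v hv
    rw [scan_cons] at h
    split_ifs at h with h1 h2 h3 h4
    · exact ih s s' Q Q' h v hv
    · exact ih _ _ _ Q' h v (List.mem_append.mpr (Or.inr hv))
    · rcases hr : rdl n b C s' Q with _ | ⟨u, Q1⟩
      · rw [hr] at h
        cases h
      · rw [hr] at h
        exact ih _ _ _ Q' h v ((rdl_true n b C s' Q u Q1 hr).2.2 v hv)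

theorem any_congr' {α : Type*} {l : List α} {f g : α → Bool} (h : ∀ x ∈ l, f x = g x) :
    l.any f = l.any g := by
  induction l with
  | nil => rfl
  | cons a l ih =>
    rw [List.any_cons, List.any_cons, h a (List.mem_cons_self ..),
      ih fun x hx => h x (List.mem_cons_of_mem _ hx)]

theorem known_congr {n : ℕ} (r r' : Fin n → Bool) (Q : List ℕ) (C : Clause)
    (h : ∀ v ∈ Q, cf r v = cf r' v) : known n (cf r) Q C = known n (cf r') Q C := by
  unfold known
  congr 1
  refine any_congr' fun p _ => ?_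
  by_cases h1 : p.1 ∈ Q
  · rw [h p.1 h1]
  · by_cases h2 : n ≤ p.1
    · rw [cf_ge r h2, cf_ge r' h2]
    · simp [h1, h2]

theorem scan_congr {n k : ℕ} (r r' : Fin n → Bool) (F : List Clause) :
    ∀ (s s' : ℕ) (Q Q' : List ℕ), scan n k (cf r) F s s' Q = some Q' →
      (∀ v ∈ Q', cf r v = cf r' v) → scan n k (cf r') F s s' Q = some Q' := by
  induction F with
  | nil =>
    intro s s' Q Q' h _
    rw [scan] at h ⊢
    exact h
  | cons C F ih =>
    intro s s' Q Q' h hv
    have hQ : ∀ v ∈ Q, cf r v = cf r' v := fun v hvQ => hv v (scan_sub _ _ s s' Q Q' h v hvQ)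
    rw [scan_cons] at h ⊢
    rw [← known_congr r r' Q C hQ]
    split_ifs at h with h1 h2 h3 h4
    · rw [if_pos h1]
      exact ih s s' Q Q' h hv
    · rw [if_neg h1, if_pos h2, if_neg h3]
      have hC : ∀ p ∈ C, cf r p.1 = cf r' p.1 := fun p hp =>
        hv p.1 (scan_sub _ _ _ _ _ Q' h p.1
          (List.mem_append.mpr (Or.inl (List.mem_map_of_mem hp))))
      have h5 : (C.any fun p => decide (cf r' p.1 = p.2)) = true := by
        rw [← h4]
        refine any_congr' fun p hp => ?_
        rw [hC p hp]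
      rw [if_pos h5]
      exact ih _ _ _ Q' h hv
    · rw [if_neg h1, if_neg h2]
      rcases hr : rdl n (cf r) C s' Q with _ | ⟨u, Q1⟩
      · rw [hr] at h
        cases h
      · rw [hr] at h
        have h5 : rdl n (cf r') C s' Q = some (u, Q1) :=
          rdl_congr r r' C s' Q u Q1 hr fun v hvv => hv v (scan_sub _ _ _ _ _ Q' h v hvv)
        rw [h5]
        exact ih _ _ _ Q' h hv

theorem cks : CksStmt := by
  intro n k F s s' Q Q' r r'
  exact ⟨scan_holds r F s s' Q Q', fun h => scan_len _ k F s s' Q Q' h,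
    fun h hv => scan_congr r r' F s s' Q Q' h hv⟩

end Pool.Agent.Helper78.JT
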