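import Pool.Agent.Helper78.JT.Goals3
import Pool.Agent.Helper39.JT.SMP
import Pool.Agent.Helper42.JT.CHN
import Pool.Agent.Helper40.JT.STR
import Pool.Agent.Helper88.JT.BRJ
import Pool.Agent.Helper89.JT.RNJ
import Pool.Agent.Helper10.JT.GTJ
import Pool.Agent.Helper17.JT.FOJ
import Pool.Agent.Helper46.JT.HYJ
import Pool.Agent.Helper65.JT.TOJ
import Pool.Agent.Helper86.JT.TBJ
import Pool.Agent.Helper51.JT.TGJ
import Pool.Agent.Helper3.JT.TLJ
import Pool.Agent.Helper56.JT.PJ12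
import Pool.Agent.Helper5.JT.PJ3
import Pool.Agent.Helper79.JT.PJ4
import Pool.Agent.Helper34.JT.PJ5
import Pool.Agent.Helper58.JT.PJ6
import Pool.Agent.Helper51.JT.PJA
import Pool.Agent.Helper73.JT.PJB
import Pool.Agent.Helper27.JT.DGJ
import Pool.Agent.Helper63.JT.APJ
import Pool.Agent.Helper81.JT.PTJ
import Pool.Agent.Helper26.JT.GEJ
import Pool.Agent.Helper78.JT.CKS
import Pool.Agent.Helper78.JT.CKL
import Pool.Agent.Helper60.JT.CKT
import Pool.Agent.Helper83.JT.CKE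
import Pool.Agent.Helper63.JT.CKP
import Pool.Agent.Helper94.JT.CKF
import Pool.Agent.Helper55.JT.CKG

/-!
# Circuits over decision lists of CNFs: the assembly
-/

namespace Pool.Agent.Helper78.JT

open Pool.Agent.Helper51.ZP

theorem tgjS : TgjStmt :=
  Pool.Agent.Helper51.JT.tgj
    (Pool.Agent.Helper65.JT.toj
      (Pool.Agent.Helper10.JT.gtj (Pool.Agent.Helper42.JT.chn Pool.Agent.Helper39.JT.smp)
        Pool.Agent.Helper40.JT.str Pool.Agent.Helper89.JT.rnj)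
      (Pool.Agent.Helper17.JT.foj Pool.Agent.Helper88.JT.brj Pool.Agent.Helper89.JT.rnj)
      Pool.Agent.Helper46.JT.hyj)
    Pool.Agent.Helper86.JT.tbj

theorem pj4S : Pj4Stmt := Pool.Agent.Helper79.JT.pj4 Pool.Agent.Helper3.JT.tlj

theorem pjaS : PjaStmt :=
  Pool.Agent.Helper51.JT.pja Pool.Agent.Helper3.JT.tlj
    (Pool.Agent.Helper56.JT.pj1 Pool.Agent.Helper3.JT.tlj)
    (Pool.Agent.Helper56.JT.pj2 Pool.Agent.Helper3.JT.tlj)
    (Pool.Agent.Helper5.JT.pj3 Pool.Agent.Helper3.JT.tlj) pj4S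
    (Pool.Agent.Helper34.JT.pj5 Pool.Agent.Helper3.JT.tlj pj4S)
    (Pool.Agent.Helper58.JT.pj6 Pool.Agent.Helper3.JT.tlj pj4S)

theorem gejS : GejStmt :=
  Pool.Agent.Helper26.JT.gej
    (Pool.Agent.Helper63.JT.apj tgjS pjaS (Pool.Agent.Helper73.JT.pjb Pool.Agent.Helper3.JT.tlj)
      Pool.Agent.Helper27.JT.dgj)
    Pool.Agent.Helper81.JT.ptj

theorem main (c k e : ℕ) :
    Counts c k e ∧ ∀ L : Set (List Bool), InP L ↔ Decided c k e L := by
  have hF : CkfStmt := Pool.Agent.Helper94.JT.ckf gejS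
    (ckl cks)
    (Pool.Agent.Helper83.JT.cke cks Pool.Agent.Helper60.JT.ckt)
    Pool.Agent.Helper63.JT.ckp
  exact ⟨hF c k e, Pool.Agent.Helper55.JT.ckg hF c k e⟩

end Pool.Agent.Helper78.JT
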