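import Pool.Agent.Helper78.JT.Goals

/-!
# Counting for `H (f 0, ..., f (r - 1))`: parameters and the algorithm

In all docstrings `A = a + 5`, `b = bb a e = (e+1)(e+2) A`, `t = tj a e L = ⌊log₂ L / b⌋`,
`U = Uj a e L = 2 ^ ((e+1) A t)`, `D = Dj a e L`, `s = sj a e L`, `P = Pj c L`, `q = qj c L`,
`R j = Rj a e L j`. `NprStmt` and `CpwStmt` of `DT/Goals2.lean` are proved (`npr`, `cpwS` in
`DT/Final.lean`).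
-/

namespace Pool.Agent.Helper78.JT

open Pool.Agent.Helper81.CC Pool.Agent.Helper51.ZP Pool.Agent.Helper78.DT Pool.Agent.Helper78.AO
open scoped Classical

/-- **TLJ.** The size of the parameters.

Proof. (1) `Nat.pow_log_le_self`, `Nat.lt_pow_succ_log_self`, `Nat.div_mul_le_self`,
`Nat.lt_mul_div_succ`. (2) `L0 = 2 ^ (b M)`. (3) `r ^ (e+1) ≤ L ^ e ≤ L ^ (e+1)`, so `r ≤ L`; and
`r ^ (e+1) ≤ L ^ e ≤ 2 ^ (b (t+1) e) = (2 ^ (e (e+2) A (t+1))) ^ (e+1)`, so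
`r ≤ 2 ^ (e (e+2) A (t+1))`; with `t s ≤ 2^t 2^(t (a+1))` this gives `r (t s) ≤ D`. (4)
`U ^ (e+2) = 2 ^ (b t) ≤ L`. (5) If `e (e+2) A ≤ t` and `2 ≤ t`: the exponent of `D * 2 ^ (2 t)` is
`t (a+2) + 2 t + t e (e+2) A + e (e+2) A ≤ t (a+5) + t e (e+2) A = (e+1)² A t`, the exponent of
`U ^ (e+1)`. -/
def TljStmt : Prop := ∀ a e : ℕ,
  (∀ L, 1 ≤ L → 2 ^ (bb a e * tj a e L) ≤ L ∧ L < 2 ^ (bb a e * (tj a e L + 1)) ∧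
    Uj a e L ^ (e + 2) ≤ L ∧
    ∀ r, r ^ (e + 1) ≤ L ^ e → r ≤ L ∧ r * (tj a e L * sj a e L) ≤ Dj a e L) ∧
  (∀ M : ℕ, ∃ L0, ∀ L ≥ L0, M ≤ tj a e L) ∧
  ∃ L0, ∀ L ≥ L0, Dj a e L * 2 ^ (2 * tj a e L) ≤ Uj a e L ^ (e + 1) ∧ Dj a e L ≤ L

/-- **PJ1.** (May assume `TljStmt`.) Proof. `r ≤ L`, `W = (c + 9) L`, `P ≥ L ^ (c + 8)` (NPR):
`r W² L / P ≤ (c+9)² L⁴ / L^(c+8)`, for `L⁴ ≥ 64 (c+9)²`. -/
def Pj1Stmt : Prop := ∀ c e : ℕ, ∃ L0, ∀ L ≥ L0, ∀ r : ℕ, r ^ (e + 1) ≤ L ^ e →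
  (r : ℝ) * ((WW c L : ℝ) ^ 2 * L / Pj c L) ≤ 1 / (64 * (L : ℝ) ^ c)

/-- **PJ2.** (May assume `TljStmt`.) Proof. As PA2 (`Pool.Agent.Helper16.DT.PA2`): with `m = t + 1`,
`(W choose m) 2^m ≤ (6 W/m)^m` and `K ≥ 2^β 6 W/m`, so the quotient is `≤ 6 W / 2^(β t)`, and
`384 r W L^c ≤ 384 (c+9) L^(c+2) ≤ 384 (c+9) 2^(b (t+1)(c+2)) ≤ 2^(β t)` if `384 (c+9) ≤ 2^t`,
`t ≥ 1`, because then `β t = 2 b (c+2) t + t ≥ b (c+2)(t+1) + t`. -/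
def Pj2Stmt : Prop := ∀ c a e β : ℕ, β = 2 * bb a e * (c + 2) + 1 → ∃ L0, ∀ L ≥ L0, ∀ r : ℕ,
  r ^ (e + 1) ≤ L ^ e →
  (r : ℝ) * (((WW c L).choose (tj a e L + 1) : ℝ) * 2 ^ (tj a e L + 1) /
    (Kj c a β e L : ℝ) ^ tj a e L) ≤ 1 / (64 * (L : ℝ) ^ c)

/-- **PJ3.** (May assume `TljStmt`.) Proof. `P ≤ 2 L^(c+8)`, so `2 P + 1 ≤ 2^p`,
`p = (c+8) b (t+1) + 3`, and `2 (2P+1)^t + 1 ≤ 2^(p t + 2)`; `s r ≤ D` for `t ≥ 1`; `e + 1 ≤ 2^e`,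
`L^c ≤ 2^(c b (t+1))`. So it suffices that
`e + 1 + (p t + 2) D + 6 + c b (t+1) ≤ U ^ (e+1)`, and the left side is at most
`D (e + p t + 9 + c b (t+1)) ≤ D 2^(2 t) ≤ U ^ (e+1)` for large `t`. -/
def Pj3Stmt : Prop := ∀ c a e : ℕ, ∃ L0, ∀ L ≥ L0, ∀ r : ℕ, r ^ (e + 1) ≤ L ^ e →
  ((e : ℝ) + 1) * (2 * (2 * (2 * (Pj c L : ℝ) + 1) ^ tj a e L + 1) ^ (sj a e L * r) *
    εj a e L) ≤ 1 / (64 * (L : ℝ) ^ c)

/-- **PJ4.** (May assume `TljStmt`.) Proof. `K ≤ 2^β (6 (c+9) L + 1) ≤ L²` for large `L`. Second: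
`K (e+1) δ ≤ L² (e+1) / (64 L^(c+3))`. Third: `P^D ≤ 2^(p D)` with `p = (c+8) b (t+1) + 1`,
`R e ≥ 2^(U^(e+1))`, and `64 L^(c+2) P^D ≤ 2^(6 + (c+2) b (t+1) + p D) ≤ 2^(D 2^(2t))` for large `t`.
Fourth: `K D / P ≤ L² L / L^(c+8)`. Fifth: `r (t s) ≤ D ≤ L`, so it is `≤ L² L² L / L^(c+8)`. -/
def Pj4Stmt : Prop := ∀ c a e β : ℕ, ∃ L0, ∀ L ≥ L0,
  0 < Kj c a β e L ∧ Kj c a β e L ≤ L ^ 2 ∧
  (Kj c a β e L : ℝ) * (((e : ℝ) + 1) * δj c L) ≤ 1 / (64 * (L : ℝ) ^ c) ∧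
  (Kj c a β e L : ℝ) * ((Pj c L : ℝ) ^ Dj a e L / Rj a e L e) ≤ 1 / (64 * (L : ℝ) ^ c) ∧
  (Kj c a β e L : ℝ) * ((Dj a e L : ℝ) / Pj c L) ≤ 1 / (64 * (L : ℝ) ^ c) ∧
  ∀ r : ℕ, r ^ (e + 1) ≤ L ^ e →
    (Kj c a β e L : ℝ) * (((r * (tj a e L * sj a e L) : ℕ) : ℝ) ^ 2 * L / Pj c L) ≤
      1 / (64 * (L : ℝ) ^ c)

/-- **PJ5.** (May assume `TljStmt`, `Pj4Stmt`.) Proof. Let `H = 2 ^ (a - 1)`. `2/η = 2^a`,
`(2/η)^t = 2^(a t)`, `κ = 2^(-t (H-1))`, `κ^(1-η) = 2^(-t (H-1)(1-1/H)) ≤ 2^(-t (H-2))`,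
`s + 1 ≤ 2^(1 + t(a+1))`, `K r L^c ≤ L^(c+3) ≤ 2^((c+3) b (t+1))`, so it suffices that
`(c+3) b (t+1) + 1 + 6 + t (2a + 3) ≤ t H`, which holds for `t ≥ 1` by the hypothesis, since
`(c+3) b (t+1) ≤ 2 (c+3) b t`. (Compare `Pool.Agent.Helper31.DT.PA5`.) -/
def Pj5Stmt : Prop := ∀ c a e β : ℕ, 1 ≤ a →
  2 * a + 3 + 2 * (c + 3) * bb a e + 7 ≤ 2 ^ (a - 1) → ∃ L0, ∀ L ≥ L0, ∀ r : ℕ,
    r ^ (e + 1) ≤ L ^ e →
    (Kj c a β e L : ℝ) * (r * ((sj a e L + 1) * (κj a e L ^ (1 - ηp a) *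
      (2 / ηp a) ^ tj a e L))) ≤ 1 / (64 * (L : ℝ) ^ c)

/-- **PJ6.** (May assume `TljStmt`, `Pj4Stmt`.) The side conditions.

Proof. `K ≤ L² ≤ L^(c+8) ≤ P`. `2 k j = d j`. `M 0 = q ≤ 2^(18 + (2c+8) b (t+1)) ≤ 2^U ≤ R 0` for
large `t`, since `U ≥ 2^(5 t)`; `M (j+1) = R j ≤ 2 * 2^(U^(j+1)) ≤ 2^(U^(j+2)) ≤ R (j+1)`, as
`U ≥ 2`. For `j = 0`: `(k 0)² = 4 U^(2e+2) ≤ 4 L²` and `q δ² = 2^6 L²`, so the quotient is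
`≤ 1/16 ≤ 1/2`, and its power is `≤ 2^(-k 0) ≤ ε`. For `1 ≤ j ≤ e`: `M j = R (j-1) ≥ 2^(U^j)` and
`(k j)²/(M j δ²) ≤ 2^14 L^(2c+8) / 2^(U^j) ≤ 2^(-U^j/2)`, because
`14 + (2c+8) b (t+1) ≤ U/2 ≤ U^j/2` for large `t` (`U` is even), and `(U^j/2) (k j) = U^(e+1)`.
`(2/η)^t = 2^(a t) = s * 2^(-t) = s (κ/2^t)^η`, because `κ / 2^t = 2^(-t H)`, `η = 1/H`,
`H = 2^(a-1)`. -/
def Pj6Stmt : Prop := ∀ c a e β : ℕ, 1 ≤ a → ∃ L0, ∀ L ≥ L0,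
  (Pj c L).Prime ∧ Kj c a β e L ≤ Pj c L ∧ 0 < qj c L ∧ 0 < δj c L ∧ 0 ≤ εj a e L ∧
  (∀ j ≤ e, (Rj a e L j).Prime ∧ Mj c a e L j ≤ Rj a e L j ∧ 2 * kj a e L j ≤ dj a e L j ∧
    ((kj a e L j : ℝ) ^ 2 / (Mj c a e L j * δj c L ^ 2)) ^ kj a e L j ≤ εj a e L) ∧
  0 < ηp a ∧ ηp a ≤ 1 ∧ 0 < κj a e L ∧
  (2 / ηp a) ^ tj a e L ≤ sj a e L * (κj a e L / 2 ^ tj a e L) ^ ηp a

/-- **PJA.** The choice of the parameters: all errors together are small. (May assume `TljStmt`,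
`Pj1Stmt`, ..., `Pj6Stmt`; compare `DT/Para.lean`.)

Proof. Choose `a ≥ 1` with `2 a + 3 + 2 (c + 3) (bb a e) + 7 ≤ 2 ^ (a - 1)` (`bb a e` is linear in
`a`) and `β = 2 (bb a e) (c + 2) + 1`. The left side of the last inequality is the sum of the eight
quantities in PJ1, ..., PJ5, so it is at most `8/(64 L^c) < 1/(2 L^c)`. -/
def PjaStmt : Prop := ∀ c e : ℕ, ∃ a β L0 : ℕ, ∀ L ≥ L0, ∀ r : ℕ, r ^ (e + 1) ≤ L ^ e →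
  (Pj c L).Prime ∧ 0 < Kj c a β e L ∧ Kj c a β e L ≤ Pj c L ∧ 0 < qj c L ∧ 0 < δj c L ∧
  0 ≤ εj a e L ∧ r * (tj a e L * sj a e L) ≤ Dj a e L ∧
  (∀ j ≤ e, (Rj a e L j).Prime ∧ Mj c a e L j ≤ Rj a e L j ∧ 2 * kj a e L j ≤ dj a e L j ∧
    ((kj a e L j : ℝ) ^ 2 / (Mj c a e L j * δj c L ^ 2)) ^ kj a e L j ≤ εj a e L) ∧
  0 < ηp a ∧ ηp a ≤ 1 ∧ 0 < κj a e L ∧
  (2 / ηp a) ^ tj a e L ≤ sj a e L * (κj a e L / 2 ^ tj a e L) ^ ηp a ∧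
  (r : ℝ) * ((WW c L : ℝ) ^ 2 * L / Pj c L +
      ((WW c L).choose (tj a e L + 1)) * 2 ^ (tj a e L + 1) / (Kj c a β e L : ℝ) ^ tj a e L) +
    ((e : ℝ) + 1) * (2 * (2 * (2 * (Pj c L : ℝ) + 1) ^ tj a e L + 1) ^ (sj a e L * r) *
      εj a e L) +
    Kj c a β e L * erj (Pj c L) r (tj a e L) (sj a e L) L (ηp a) (κj a e L)
      (((e : ℝ) + 1) * δj c L + ((Pj c L : ℝ) ^ Dj a e L / Rj a e L e + Dj a e L / Pj c L)) <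
    1 / (2 * (L : ℝ) ^ c)

/-- **PJB.** The number of the seeds is at most `2 ^ (C L)`. (May assume `TljStmt`.)

Proof. `P ≤ 2^(1 + (c+8) b (t+1))` and `P^(t+2) ≤ 2^L` for large `t`, as `L ≥ 2^(b t) ≥ 2^t`.
`R j ≤ 2 * 2^(U^(j+1)) ≤ 2^(2 U^(j+1))`, `d j = 4 U^(e+1-j)`, so `(R j)^(d j) ≤ 2^(8 U^(e+2)) ≤ 2^(8 L)`
for `j ≤ e`. `q P ≤ 2^19 L^(3c+16) ≤ 2^(D' (t+1))` with `D' = 19 + (3c+16) b`, and
`K (t+1) ≤ 2^β (6 W + t + 1) ≤ 2^β (6 (c+9) + 1) L`, so `(q P)^K ≤ 2^(D' 2^β (6 (c+9) + 1) L)`. With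
`C` the maximum of `8` and `D' 2^β (6 (c+9) + 1)`, all the powers are `≤ 2^(C L) ≤ cap`, and by CPW
(`cpw cap b n = min cap (b ^ n)` for `1 ≤ cap`, `1 ≤ b`) nothing is cut off; the same for
`Zlc cap (Rj a e L) (dj a e L) j` with any `j ≤ e + 1`. -/
def PjbStmt : Prop := ∀ c a e β : ℕ, ∃ C L0 : ℕ, ∀ L ≥ L0, ∀ cap : ℕ, 2 ^ (C * L) ≤ cap →
  Zcj cap c a β e L = ZZj c a β e L

/-- **DGJ.** Counting seeds by their digits. (Adapt `Pool.Agent.Helper34.DT.DIG`.)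

Proof. As DIG; the middle part is the number `i / P^u % Z` itself. -/
def DgjStmt : Prop := ∀ (P Z Q u K : ℕ) (F : (ℕ → ℕ) → ℕ → (ℕ → ℕ) → Bool),
  (∀ (A A' s s' : ℕ → ℕ) (θ : ℕ), (∀ i < u, A i = A' i) → (∀ i < K, s i = s' i) →
    F A θ s = F A' θ s') →
  (∀ (A s : ℕ → ℕ) (θ : ℕ), F A θ s = F A (θ % Z) s) →
  (((List.range (P ^ u * Z * Q ^ K)).filter fun i =>
      F (dg P i) (i / P ^ u) (dg Q (i / P ^ u / Z))).length : ℝ) =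
    ((P ^ u * Z * Q ^ K : ℕ) : ℝ) *
      pr fun z : (Fin u → Fin P) × Fin Z × (Fin K → Fin Q) =>
        F (ext z.1) z.2.1 (ext z.2.2) = true

/-! ### The algorithm -/

/-- The value of the sample number `i`. -/
def sdj (F : ℕ → ℕ → (ℕ → ℕ) → (ℕ → Bool) → Bool) (m c a β e L i : ℕ) : Bool :=
  F (Kj c a β e L) (tj a e L) (pt (Pj c L) (Kj c a β e L) (tj a e L) L (dg (Pj c L) i))
    (cut m (cnj
      (fun x u => sb (Pj c L) (Dj a e L)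
        (ch (Rj a e L) (dj a e L) (i / Pj c L ^ (tj a e L + 2)) x (e + 1)) u)
      (Pj c L) (Kj c a β e L) (tj a e L) L (dg (Pj c L) i)
      (dg (qj c L * Pj c L)
        (i / Pj c L ^ (tj a e L + 2) / Zl (Rj a e L) (dj a e L) (e + 1)))))

/-- The number of the samples. -/
def znj (c a β e C N : ℕ) : ℕ := Zcj ((4 * N + 4) ^ C) c a β e (lg N)

/-- The number of the accepted samples. -/
def anj (F : ℕ → ℕ → (ℕ → ℕ) → (ℕ → Bool) → Bool) (m c a β e C N : ℕ) : ℕ :=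
  ((List.range (znj c a β e C N)).filter fun i => sdj F m c a β e (lg N) i).length

/-- The approximation in units of `1 / lg N ^ c0`. -/
def apj (F : ℕ → ℕ → (ℕ → ℕ) → (ℕ → Bool) → Bool) (m c a β e C c0 N : ℕ) : ℕ :=
  (2 * lg N ^ c0 * anj F m c a β e C N + znj c a β e C N) / (2 * znj c a β e C N)

/-- **APJ.** The approximation. (May assume `TgjStmt`, `PjaStmt`, `PjbStmt`, `DgjStmt`; adapt
`Pool.Agent.Helper50.AO.APG`.)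

Proof. Let `c = c0 + c1`, take `a`, `β`, `L0` from PJA for `c`, `e` and `C`, `L0'` from PJB. For
`L = lg N ≥ max`: `n ≤ N < 2 ^ L`, the width is `≤ c1 * L ≤ WW c L = (c + 9) * L`, `znj = ZZj` since
`2 ^ (C L) ≤ (4 N + 4) ^ C`; by DGJ the fraction `anj / znj` is the probability in TGJ (with `l = e`,
and `ch R d θ a (e+1)` depends only on `θ % Zl R d (e+1)`; `sdj` depends only on the first digits).
The error is `< 1/(2 L^c) ≤ 1/(2 L^c0)`, and the rounding in `apj` costs at most `1/2` unit. -/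
def ApjStmt : Prop := ∀ c1 c0 e : ℕ, ∃ a β C L0 : ℕ, ∀ (n N r : ℕ)
  (F : ℕ → ℕ → (ℕ → ℕ) → (ℕ → Bool) → Bool), n ≤ N → ListsJ n (c1 * lg N) r F →
  r ^ (e + 1) ≤ lg N ^ e → L0 ≤ lg N →
    |(apj F n (c0 + c1) a β e C c0 N : ℝ) / (lg N : ℝ) ^ c0 -
        pr (fun b : Fin n → Bool => F 0 0 (fun _ => 0) (cf b) = true)| ≤ 1 / (lg N : ℝ) ^ c0

/-- **PTJ.** The algorithm runs in polynomial time. (Adapt `Pool.Agent.Helper59.AO.PTG`, which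
follows `Pool.Agent.Helper16.DT.PTD`.)

Proof. `e` is a constant, so `ch R d θ x (e + 1)`, `Zl R d j` and `Zlc cap R d j` (`j ≤ e + 1`) are
composed from `e + 1` steps (induction on a number `l ≤ e + 1`, for functions `R l`, `d l` of the
input). `R j = np (2 ^ (U ^ (j+1)))` for `j ≤ e` with `2 ^ (U ^ (j+1)) ≤ 2 ^ L ≤ 4 N + 4`, since
`U ^ (e+2) = 2 ^ (bb a e * t) ≤ L`; use the last clause of PTL (`((∀ a, 2 ^ m a ≤ n a) → ...)`). Also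
`d j ≤ 4 L` and `D = Dj a e L`: its exponent is `≤ c' (t + 1)`, so `D ≤ (2 L) ^ C'` for a constant
`C'` (`2 ^ t ≤ L`), as a power `(2 ^ t) ^ const * const`. The numbers `Pj c L ^ (t + 2)` and
`Zl ... (e + 1)` occur only as divisors of numbers `i`, and `dg (R l) (θ / Zl R d l)` in `ch` as well:
`i / X = i / min X (i + 1)`, and `min X (i + 1)` is computed by products cut off at `i + 1`. -/
def PtjStmt : Prop := ∀ (α : Type) [ToData α] (F : α → ℕ → ℕ → (ℕ → ℕ) → (ℕ → Bool) → Bool)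
  (m s : α → ℕ) (c a β e C c0 : ℕ), PolyR F → PolyTime m → PolyTime s →
  PolyTime fun x => apj (F x) (m x) c a β e C c0 (s x)

/-- **GEJ.** The general theorem. (May assume `ApjStmt`, `PtjStmt`; use BRG:
`Pool.Agent.Helper89.AO.brg`; adapt `Pool.Agent.Helper61.AO.GEN`.)

Proof. `apj` if `L0 ≤ lg (s x)`, and brute force with `M = 2 ^ L0` otherwise, as
`m x ≤ s x < 2 ^ lg (s x)`. -/
def GejStmt : Prop := ∀ (α : Type) [ToData α] (F : α → ℕ → ℕ → (ℕ → ℕ) → (ℕ → Bool) → Bool)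
  (m s : α → ℕ) (c1 e : ℕ), PolyR F → PolyTime m → PolyTime s → (∀ x, m x ≤ s x) →
  ∀ c0 : ℕ, ∃ f : α → ℕ, PolyTime f ∧ ∀ (x : α) (r : ℕ), ListsJ (m x) (c1 * lg (s x)) r (F x) →
    r ^ (e + 1) ≤ lg (s x) ^ e →
    |(f x : ℝ) / (lg (s x) : ℝ) ^ c0 -
        pr (fun b : Fin (m x) → Bool => F x 0 0 (fun _ => 0) (cf b) = true)| ≤
      1 / (lg (s x) : ℝ) ^ c0

end Pool.Agent.Helper78.JT
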