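import Pool.Agent.Helper78.JT.Num

/-!
# Counting for `H (f 0, ..., f (r - 1))`: the analysis, with proofs in words

`f j` are decision lists, `H` is any Boolean function, `r ≤ (log N) ^ (e / (e + 1))`. All the goals of
the projects DT and AO are proved and may be used (`DT/Final.lean`, `AO/Final.lean` and their
imports); most packets are variants of packets of DT. New is only the chain of samplers (SMP, CHN,
STR), which needs fewer random bits than the polynomial of DT.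
-/

namespace Pool.Agent.Helper78.JT

open Pool.Agent.Helper78.DT
open scoped Classical

/-- **BRJ.** The brackets of a tuple, and the probability of the exceptional event. (Use BRK, BDP:
`Pool.Agent.Helper13.DT.brk keyS`, `Pool.Agent.Helper15.DT.bdp ...`, see `DT/Final.lean`.)

Proof. (1) Take `g j` from BRK for `f j`. If `Bad` does not happen for `g j`, then `lo` and `hi` of
`g j` both say `ev (g j) x = true`, so `ev (f j) x = ev (g j) x`. (2) Union bound over `j` and BDP;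
`(g j).length ≤ s`. -/
def BrjStmt : Prop := ∀ (V : Type) [Fintype V] [DecidableEq V] (η k : ℝ) (t r : ℕ),
  0 < η → η ≤ 1 → 0 < k →
  (∀ f : Fin r → DL V, (∀ j, Wid t (f j)) →
    ∃ g : Fin r → DL V, (∀ j, (g j).Sublist (f j)) ∧
      (∀ j, ((g j).length : ℝ) * k ^ η ≤ (2 / η) ^ t) ∧
      ∀ x, ¬ BadJ t (2 ^ t * k) g x → ∀ j, ev (f j) x = ev (g j) x) ∧
  (∀ (s : ℕ) (g : Fin r → DL V), (∀ j, (g j).length ≤ s) →
    pr (BadJ t k g) ≤ r * ((s + 1) * (k ^ (1 - η) * (2 / η) ^ t)))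

/-- **RNJ.** Renaming, dependence, number of the variables. (Use the lemmas `ev_ren`, `bad_ren`,
`mem_vars_ren`, `ren_length` in `Pool.Agent.Helper81.DT.RNB`, TRF, DEP: `Pool.Agent.Helper61.DT`.)

Proof. `ev (ren π g) y = ev g (y ∘ π)`, and `Bad t k (ren π g) y ↔ Bad t k g (y ∘ π)` if `π` is
injective on `vars g`; so `loJ`, `hiJ` are renamed in the same way, and by TRF with `S = varsJ g` (on
which they depend, by DEP) the probabilities agree. `varsJ g` is the union of `r` sets with at most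
`t * (g j).length ≤ t s` elements. -/
def RnjStmt : Prop := ∀ (V V' : Type) [Fintype V] [DecidableEq V] [Fintype V'] [DecidableEq V']
  (π : V → V') (r t s : ℕ) (k : ℝ) (H : (Fin r → Bool) → Bool) (g : Fin r → DL V),
  (Set.InjOn π (varsJ g) →
    (∀ y, loJ H t k (fun j => ren π (g j)) y ↔ loJ H t k g fun v => y (π v)) ∧
    (∀ y, hiJ H t k (fun j => ren π (g j)) y ↔ hiJ H t k g fun v => y (π v)) ∧
    pr (loJ H t k fun j => ren π (g j)) = pr (loJ H t k g) ∧
    pr (hiJ H t k fun j => ren π (g j)) = pr (hiJ H t k g)) ∧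
  (∀ j, (Wid t (g j) → Wid t (ren π (g j))) ∧ (ren π (g j)).length = (g j).length) ∧
  Dep (varsJ g) (loJ H t k g) ∧ Dep (varsJ g) (hiJ H t k g) ∧
  ((∀ j, Wid t (g j) ∧ (g j).length ≤ s) → (varsJ g).ncard ≤ r * (t * s))

/-- **SMP.** One sampler: a random polynomial of degree `< d` modulo the prime `R`, at the points
`0, ..., M - 1`. (Use `Pool.Agent.Helper50.DT.mom`, `Pool.Agent.Helper35.DT.lag`, and `lag_av` in
`Pool.Agent.Helper20.DT.IND`; compare `gth_one`, `gth` in `Pool.Agent.Helper35.DT.GTH`.)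

Proof. For one `φ` let `m = pr (y : Fin R, φ y)` and `Z a θ = [φ (pv R d (ext θ) a)] - m`,
`|Z| ≤ 1`. If `τ : Fin (2 k) → Fin M` takes some value only once, then `av_θ ∏ Z (τ i) θ = 0`: the
values of the polynomial at the `≤ 2 k ≤ d` points of the image of `τ` are independent and uniform
in `{0, ..., R - 1}` (LAG; `a < M ≤ R`), and the factor with the single value has the mean `0`. By MOM
`av (∑_a Z a)^(2k) ≤ k^(2k) M^k`, and by Markov (`pr_ge_le` for the `2 k`-th powers)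
`pr (δ < |pr_a (...) - m|) ≤ pr ((M δ)^(2k) ≤ (∑_a Z a)^(2k)) ≤ k^(2k) M^k / (M δ)^(2k)
= (k² / (M δ²))^k`. Union bound over `I`. -/
def SmpStmt : Prop := ∀ (R M d k : ℕ) (δ : ℝ), R.Prime → 0 < M → M ≤ R → 2 * k ≤ d → 0 < δ →
  ∀ (ι : Type) (I : Finset ι) (φ : ι → ℕ → Prop),
    pr (fun θ : Fin d → Fin R => ∃ i ∈ I,
      δ < |pr (fun a : Fin M => φ i (pv R d (ext θ) a)) - pr (fun y : Fin R => φ i y)|) ≤
    I.card * ((k : ℝ) ^ 2 / (M * δ ^ 2)) ^ k

/-- **CHN.** The chain of samplers. (May assume `SmpStmt`.)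

Proof. Induction on `l` (for all `ι`, `I`, `φ`). A number `θ < Zl R d (l + 1)`,
`Zl R d (l + 1) = Zl R d l * R l ^ d l`, is the same as the pair of `θ % Zl R d l` and
`θ / Zl R d l < R l ^ d l`, and the latter is given by its `d l` digits in base `R l`
(`finProdFinEquiv`, `finFunctionFinEquiv`; see `Pool.Agent.Helper34.DT.DIG`); `pv R d cs x` uses only
`cs 0, ..., cs (d - 1)`. `ch R d θ a l` depends only on `θ % Zl R d l`, because it uses, for `j < l`,
only the digits `i < d j` of `θ / Zl R d j` in base `R j`, and `Zl R d j * R j ^ (i + 1)` divides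
`Zl R d l`. `l = 0`: this is SMP with `M = q` (`ch R d θ a 1 = pv (R 0) (d 0) (dg (R 0) (θ / 1)) a`).
Step from `l` to `l + 1`: let `h w = pv (R (l+1)) (d (l+1)) (coefficients) w`. By SMP (domain
`M (l+1) = R l ≤ R (l+1)`), for all but a fraction `≤ I.card * ε` of the coefficients,
`|pr_(w : Fin (R l)) φ i (h w) - pr_(y : Fin (R (l+1))) φ i y| ≤ δ` for all `i ∈ I`. For such fixed
coefficients apply the induction hypothesis to the family `φ' i w = φ i (h w)`. Add up. -/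
def ChnStmt : Prop := ∀ (R d k M : ℕ → ℕ) (q l : ℕ) (δ ε : ℝ), 0 < q → 0 < δ → 0 ≤ ε →
  M 0 = q → (∀ j, M (j + 1) = R j) →
  (∀ j ≤ l, (R j).Prime ∧ M j ≤ R j ∧ 2 * k j ≤ d j ∧
    ((k j : ℝ) ^ 2 / (M j * δ ^ 2)) ^ k j ≤ ε) →
  ∀ (ι : Type) (I : Finset ι) (φ : ι → ℕ → Prop),
    pr (fun θ : Fin (Zl R d (l + 1)) => ∃ i ∈ I, (l + 1) * δ <
      |pr (fun a : Fin q => φ i (ch R d θ a (l + 1))) - pr (fun y : Fin (R l) => φ i y)|) ≤
    (l + 1) * (I.card * ε)

/-- **STR.** The strings coded by numbers. (Use LAG, BIA: `Pool.Agent.Helper35.DT.lag`,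
`Pool.Agent.Helper93.DT.bia`; `lag_av`, `av_marg` in `Pool.Agent.Helper20.DT.IND`.)

Proof. `sb P D y` depends only on `y % P ^ D`. (a) For every event `E` and `N > 0`,
`|pr (y : Fin R, E (y % N)) - pr (w : Fin N, E w)| ≤ N / R`: write `R = N Q + ρ`, `ρ < N`; if `m` is
the number of the `w < N` with `E w`, then the number of the `y < R` with `E (y % N)` lies between
`Q m` and `Q m + ρ`, also between `Q m` and `(Q + 1) m`; both fractions are in
`[Q m / R, (Q m + ρ) / R]`, since `Q m / R ≤ m / N` and `m / N ≤ (Q m + ρ) / R` (as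
`m R = m (N Q + ρ) ≤ N (Q m + ρ)`). (b) For uniform `w < P ^ D` the `D` digits are independent and
uniform (`finFunctionFinEquiv`); by LAG (with `R = P`, `d = D`, `W` the set of the values of `S`,
`|W| ≤ D`) the numbers `pv P D (digits) u`, `u ∈ S`, are independent and uniform in
`{0, ..., P - 1}`, so the probability of `φ` is `bp P P φ` (`φ` depends only on `S`). (c) BIA with
`R = P`: `|bp P P φ - pr φ| ≤ D / P`. -/
def StrStmt : Prop := ∀ (P D R : ℕ), P.Prime → 0 < R → ∀ (φ : (Fin P → Bool) → Prop)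
  (S : Set (Fin P)), Dep S φ → S.ncard ≤ D →
    |pr (fun y : Fin R => φ fun u => sb P D y u) - pr φ| ≤ (P : ℝ) ^ D / R + D / P

/-- **GTJ.** Most seeds of the chain give good strings. (May assume `ChnStmt`, `StrStmt`,
`RnjStmt`; use CNT: `Pool.Agent.Helper61.DT.cnt`.)

Proof. The tests are `loJ H t κ g` and `hiJ H t κ g` for the tuples `g` with `Wid t (g j)`,
`(g j).length ≤ s`; by CNT there are at most `((2 * (2 P + 1)^t + 1)^s)^r` tuples. CHN for the
predicates `φ y = test (fun u => sb P D y u)`; by STR (with `S = varsJ g`, `|S| ≤ r (t s) ≤ D` by RNJ)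
`|pr (y : Fin (R l), φ y) - pr test| ≤ P^D / R l + D / P`. -/
def GtjStmt : Prop := ∀ (P q r t s D l : ℕ) (R d k M : ℕ → ℕ) (κ δ ε : ℝ)
  (H : (Fin r → Bool) → Bool), P.Prime → 0 < q → 0 < δ → 0 ≤ ε → r * (t * s) ≤ D →
  M 0 = q → (∀ j, M (j + 1) = R j) →
  (∀ j ≤ l, (R j).Prime ∧ M j ≤ R j ∧ 2 * k j ≤ d j ∧
    ((k j : ℝ) ^ 2 / (M j * δ ^ 2)) ^ k j ≤ ε) →
  pr (fun θ : Fin (Zl R d (l + 1)) =>
      ¬ GoodJ P q r t s κ ((l + 1) * δ + ((P : ℝ) ^ D / R l + D / P)) H
        fun a u => sb P D (ch R d θ a (l + 1)) u) ≤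
    (l + 1) * (2 * (2 * (2 * (P : ℝ) + 1) ^ t + 1) ^ (s * r) * ε)

/-- **FOJ.** Good strings fool all tuples of lists of width `t` with names `< 2 ^ e`. (May assume
`BrjStmt`, `RnjStmt`; use INJ: `inj` in `DT/Final.lean`.)

Proof. As FOO (`Pool.Agent.Helper9.DT.foo`): `g` from BRJ for `f` (with `k = κ / 2^t`),
`(g j).length ≤ s`, and `pr (BadJ t κ g) ≤ r ((s+1) (κ^(1-η) (2/η)^t))`. For all but a fraction
`≤ (r t s)² e / P` of the `w : Fin P` the map `v ↦ hs P e w v` is injective on `varsJ g` (INJ), and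
then `GoodJ` for the renamed tuple and RNJ give
`pr_a (hiJ H t κ g (z a ∘ π_w)) ≤ pr (hiJ H t κ g) + δ`, and the same for `loJ` from below. If
`H (ev f)` is true at `x`, then `hiJ H t κ g x`; if `loJ H t κ g x`, then `H (ev f)` is true at `x`;
and `pr (hiJ) ≤ pr (H (ev f) = true) + pr (BadJ)`, `pr (H (ev f) = true) ≤ pr (loJ) + pr (BadJ)`. -/
def FojStmt : Prop := ∀ (P q r t s e n : ℕ) (η κ δ : ℝ) (H : (Fin r → Bool) → Bool)
  (z : ℕ → ℕ → Bool), P.Prime → 0 < q → 0 < η → η ≤ 1 → 0 < κ →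
  (2 / η) ^ t ≤ s * (κ / 2 ^ t) ^ η → n ≤ 2 ^ e → 0 ≤ δ → GoodJ P q r t s κ δ H z →
  ∀ f : Fin r → DL (Fin n), (∀ j, Wid t (f j)) →
    |pr (fun p : Fin q × Fin P =>
        H (fun j => ev (f j) fun v => z p.1 (hs P e p.2 v)) = true) -
      pr (fun x => H (fun j => ev (f j) x) = true)| ≤ erj P r t s e η κ δ

/-- **HYJ.** The hybrid argument for a tuple. (Adapt `Pool.Agent.Helper32.DT.HYB`.)

Proof. As HYB: fix the values outside the part `j` and delete, in each `f i`, the entries which are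
falsified by the fixed values, and in the others the literals outside the part `j`: this gives a
tuple `f'` of lists of width `t` with `ev (f i) = ev (f' i)` on the part `j`, for all `i`, and `H` is
not changed. -/
def HyjStmt : Prop := ∀ (n K t r : ℕ) (S : Type) [Fintype S] [Nonempty S] (G : S → Fin n → Bool)
  (δ : ℝ) (H : (Fin r → Bool) → Bool), 0 ≤ δ →
  (∀ f : Fin r → DL (Fin n), (∀ j, Wid t (f j)) →
    |pr (fun s => H (fun j => ev (f j) (G s)) = true) -
      pr (fun x => H (fun j => ev (f j) x) = true)| ≤ δ) →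
  ∀ (h : Fin n → Fin K) (f : Fin r → DL (Fin n)),
    (∀ i, ∀ e ∈ f i, ∀ j, (e.1.filter fun p => h p.1 = j).card ≤ t) →
    |pr (fun s : Fin K → S => H (fun i => ev (f i) fun v => G (s (h v)) v) = true) -
      pr (fun x => H (fun i => ev (f i) x) = true)| ≤ K * δ

/-- **TOJ.** The generator for a given partition. (May assume `GtjStmt`, `FojStmt`, `HyjStmt`.)

Proof. As TOA (`Pool.Agent.Helper79.DT.TOA`): for good `θ` (GTJ) the generator
`G (a, w) = fun v => sb P D (ch R d θ a (l + 1)) (hs P e w v)` satisfies the hypothesis of HYJ with the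
error `erj ...` (FOJ); for bad `θ` the difference is at most `1`. -/
def TojStmt : Prop := ∀ (n K t e P q r s D l : ℕ) (R d k M : ℕ → ℕ) (η κ δ ε : ℝ)
  (H : (Fin r → Bool) → Bool), P.Prime → 0 < K → 0 < q → n ≤ 2 ^ e →
  0 < δ → 0 ≤ ε → r * (t * s) ≤ D → M 0 = q → (∀ j, M (j + 1) = R j) →
  (∀ j ≤ l, (R j).Prime ∧ M j ≤ R j ∧ 2 * k j ≤ d j ∧
    ((k j : ℝ) ^ 2 / (M j * δ ^ 2)) ^ k j ≤ ε) →
  0 < η → η ≤ 1 → 0 < κ → (2 / η) ^ t ≤ s * (κ / 2 ^ t) ^ η →
  ∀ (h : ℕ → ℕ), (∀ v, h v < K) → ∀ f : Fin r → DL (Fin n),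
    (∀ i, ∀ g ∈ f i, ∀ j < K, (g.1.filter fun p => h p.1 = j).card ≤ t) →
    |pr (fun z : Fin (Zl R d (l + 1)) × (Fin K → Fin (q * P)) =>
        H (fun i => ev (f i) fun v => sb P D (ch R d z.1 (ext z.2 (h v) / P) (l + 1))
          (hs P e (ext z.2 (h v) % P) v)) = true) -
      pr (fun x => H (fun i => ev (f i) x) = true)| ≤
      (l + 1) * (2 * (2 * (2 * (P : ℝ) + 1) ^ t + 1) ^ (s * r) * ε) +
        K * erj P r t s e η κ ((l + 1) * δ + ((P : ℝ) ^ D / R l + D / P))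

/-- **TBJ.** Dropping the unbalanced terms. (Use BAL: `balS` in `DT/Final.lean`; adapt
`Pool.Agent.Helper65.DT.TOB`.)

Proof. As TOB: for fixed `b`, the values for the filtered and for the whole lists can differ only if
for some `i` the first satisfied entry of `f i` is not balanced; union bound over `i`. -/
def TbjStmt : Prop := ∀ (n P K t e W r : ℕ), P.Prime → 0 < K → K ≤ P → n ≤ 2 ^ e →
  ∀ (H : (Fin r → Bool) → Bool) (f : Fin r → DL (Fin n)), (∀ i, Wid W (f i)) →
    |pr (fun z : (Fin (t + 2) → Fin P) × (Fin n → Bool) =>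
        H (fun i => ev ((f i).filter (bal K t (pt P K t e (ext z.1)))) z.2) = true) -
      pr (fun x => H (fun i => ev (f i) x) = true)| ≤
    r * ((W : ℝ) ^ 2 * e / P + (W.choose (t + 1)) * 2 ^ (t + 1) / (K : ℝ) ^ t)

/-- `F` computes `H` of the values of the balanced parts of `r` decision lists of width `w`. -/
def ListsJ (n w r : ℕ) (F : ℕ → ℕ → (ℕ → ℕ) → (ℕ → Bool) → Bool) : Prop :=
  ∃ (f : Fin r → DL (Fin n)) (H : (Fin r → Bool) → Bool), (∀ j, Wid w (f j)) ∧
    ∀ (b : Fin n → Bool) (h : ℕ → ℕ) (K t : ℕ),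
      H (fun j => ev ((f j).filter (bal K t h)) b) = F K t h (cf b)

/-- **TGJ.** The total error. (May assume `TojStmt`, `TbjStmt`; adapt `Pool.Agent.Helper94.AO.TOG`.)

Proof. For each `A'` put `h = pt P K t e (ext A')` (values `< K`) and filter the lists by
`bal K t h`; TOJ for the filtered lists; the assignment of TOJ is the restriction to `Fin n` of
`cut n (cnj ...)`. Average over `A'` (`av_prod`), then TBJ; with `K = 0` the filter does nothing, so
`H (ev f) = F 0 0 h (cf b)`. -/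
def TgjStmt : Prop := ∀ (n W K t e P q r s D l : ℕ) (R d k M : ℕ → ℕ) (η κ δ ε : ℝ)
  (F : ℕ → ℕ → (ℕ → ℕ) → (ℕ → Bool) → Bool), ListsJ n W r F → P.Prime → 0 < K → K ≤ P → 0 < q →
  n ≤ 2 ^ e → 0 < δ → 0 ≤ ε → r * (t * s) ≤ D → M 0 = q → (∀ j, M (j + 1) = R j) →
  (∀ j ≤ l, (R j).Prime ∧ M j ≤ R j ∧ 2 * k j ≤ d j ∧
    ((k j : ℝ) ^ 2 / (M j * δ ^ 2)) ^ k j ≤ ε) →
  0 < η → η ≤ 1 → 0 < κ → (2 / η) ^ t ≤ s * (κ / 2 ^ t) ^ η →
  |pr (fun z : (Fin (t + 2) → Fin P) × Fin (Zl R d (l + 1)) × (Fin K → Fin (q * P)) =>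
      F K t (pt P K t e (ext z.1)) (cut n (cnj (fun a u => sb P D (ch R d z.2.1 a (l + 1)) u)
        P K t e (ext z.1) (ext z.2.2))) = true) -
    pr (fun b : Fin n → Bool => F 0 0 (fun _ => 0) (cf b) = true)| ≤
  r * ((W : ℝ) ^ 2 * e / P + (W.choose (t + 1)) * 2 ^ (t + 1) / (K : ℝ) ^ t) +
    (l + 1) * (2 * (2 * (2 * (P : ℝ) + 1) ^ t + 1) ^ (s * r) * ε) +
    K * erj P r t s e η κ ((l + 1) * δ + ((P : ℝ) ^ D / R l + D / P))

end Pool.Agent.Helper78.JT
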