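import Pool.Agent.Helper78.JT.Goals2
import Pool.Agent.Helper78.JT.Defs

/-!
# Counting for circuits over decision lists of narrow CNFs

The statements of the third part, with proofs in words. `JT/Defs.lean` has the definitions of the
final theorem.
-/

namespace Pool.Agent.Helper78.JT

open Pool.Agent.Helper81.CC Pool.Agent.Helper51.ZP Pool.Agent.Helper78.DT Pool.Agent.Helper78.AO
open scoped Classical

/-- The clause contains two opposite literals. -/
def opp (C : Clause) : Bool := C.any fun p => decide ((p.1, !p.2) ∈ C)

/-- The clause is known to be true, for the values `b` of the variables `v < n`, when the variables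
in the list `Q` have been read. -/
def known (n : ℕ) (b : ℕ → Bool) (Q : List ℕ) (C : Clause) : Bool :=
  opp C || C.any fun p => decide (b p.1 = p.2) && (decide (p.1 ∈ Q) || decide (n ≤ p.1))

/-- Reading a clause, literal by literal, until the first true one: the result is `none` if there is
no true literal, or if more than `s` variables would have to be read; otherwise it is what remains
of `s`, and the list of the variables which have been read. -/
def rdl (n : ℕ) (b : ℕ → Bool) : Clause → ℕ → List ℕ → Option (ℕ × List ℕ)
  | [], _, _ => none
  | p :: C, s, Q =>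
    if p.1 ∈ Q ∨ n ≤ p.1 then
      if b p.1 = p.2 then some (s, Q) else rdl n b C s Q
    else if s = 0 then none
    else if b p.1 = p.2 then some (s - 1, p.1 :: Q)
    else rdl n b C (s - 1) (p.1 :: Q)

/-- Reading a CNF: the clauses are treated one after the other. A clause which is not yet known to
be true is read completely if it has at most `k` literals (at most `s` clauses are read in this
way), and with `rdl` if it has more (at most `s'` variables are read in this way). The result is
`none` if a clause is false or if `s` or `s'` is too small; otherwise, at the end, it is the list of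
the variables which have been read. -/
def scan (n k : ℕ) (b : ℕ → Bool) : List Clause → ℕ → ℕ → List ℕ → Option (List ℕ)
  | [], _, _, Q => some Q
  | C :: F, s, s', Q =>
    if known n b Q C = true then scan n k b F s s' Q
    else if C.length ≤ k then
      if s = 0 then none
      else if (C.any fun p => decide (b p.1 = p.2)) = true then
        scan n k b F (s - 1) s' (C.map Prod.fst ++ Q)
      else none
    else
      match rdl n b C s' Q with
      | some (u, Q') => scan n k b F s u Q'
      | none => none

/-- The names `< n` in the list `Q` are balanced: at most `t` in each of the `K` parts. -/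
def okq (n K t : ℕ) (h : ℕ → ℕ) (Q : List ℕ) : Bool :=
  (List.range K).all fun j =>
    decide (((Q.filter fun v => decide (v < n)).dedup.filter fun v => decide (h v = j)).length ≤ t)

/-- The label of the first CNF of the list which is found to be true by `scan` with a balanced list
of variables. -/
def vlK (n k s s' K t : ℕ) (h : ℕ → ℕ) (b : ℕ → Bool) : CList → Bool
  | [] => false
  | e :: f =>
    match scan n k b e.1 s s' [] with
    | some Q => if okq n K t h Q = true then e.2 else vlK n k s s' K t h b f
    | none => vlK n k s s' K t h b f

/-- The number with the digits `vlK ...`. -/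
def ixK (n k s s' K t : ℕ) (h : ℕ → ℕ) (b : ℕ → Bool) : List CList → ℕ
  | [] => 0
  | f :: l => (if vlK n k s s' K t h b f = true then 1 else 0) + 2 * ixK n k s s' K t h b l

/-- The output of the circuit, with `vlK` instead of the values. -/
def outK (z : Circuit) (k s s' K t : ℕ) (h : ℕ → ℕ) (b : ℕ → Bool) : Bool :=
  z.2.2.getD (ixK z.1 k s s' K t h b z.2.1) false

/-- **CKS.** Properties of `scan`.

Proof. (1) Induction on `F`: each clause is known to be true (then it has a true literal: `opp` gives
one, since one of `b v = true`, `b v = false` holds) or it has been read and has a true literal (for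
`rdl`: induction on the clause); with `b = cf r` the value of the literal is `coin r` (`cf r v = coin
r v`, both definitions are the same `if`). (2) Induction on `F`: at most `s` clauses are read
completely, with at most `k` names each, and `rdl` appends at most as many names as it takes from
its budget. (3) Induction on `F`, for all `s`, `s'`, `Q`: `scan` only asks for the values of names
`≥ n`, of names in the current list, and of the names which it then puts on the list (in `rdl` a name
which is read is put on the list in both cases), and all of them are in the final list `Q'` or `≥ n`;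
so both scans take the same steps. (The current list is always a sublist, a suffix, of the final
one.) -/
def CksStmt : Prop := ∀ (n k : ℕ) (F : List Clause) (s s' : ℕ) (Q Q' : List ℕ)
  (r r' : Fin n → Bool),
  (scan n k (cf r) F s s' Q = some Q' → Holds r F) ∧
  (scan n k (cf r) F s s' Q = some Q' → Q'.length ≤ k * s + s' + Q.length) ∧
  (scan n k (cf r) F s s' Q = some Q' → (∀ v ∈ Q', cf r v = cf r' v) →
    scan n k (cf r') F s s' Q = some Q')

/-- **CKL.** The functions `outK` are given by tuples of decision lists. (May assume `CksStmt`;
compare `Pool.Agent.Helper48.DT.DLM`.)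

Proof. Let `n = z.1`. For a test `F` and `x : Fin n → Bool` with `scan n k (cf x) F s s' [] = some Q`
let `T_x = {(v, x v) | (v : ℕ) ∈ Q}`, a term with at most `k s + s'` literals, `Q = Q_x`. If `y`
satisfies `T_x`, then `y` agrees with `x` on the names `< n` in `Q` (for the names `≥ n` both are
`false`), so `scan` gives the same list `Q` for `y` by (3), and `T_y = T_x`. Let `g_F` be a list of all
the different terms `T_x` (`Finset.univ.filter ... |>.image ... |>.toList`); for each `y` at most one
element of `g_F` is satisfied, namely `T_y`, if `scan` succeeds for `y`. The number of the literals of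
`T_x` in the part `j` is the number of the names in `(Q.filter (· < n)).dedup` with `h v = j`, so
`bal K t h (T_x, _) = okq n K t h Q`. The decision list for `f = [(F_0, β_0), (F_1, β_1), ...]` is the
concatenation of the lists `g_(F_i)`, all with the label `β_i`: its balanced part has the value
`vlK n k s s' K t h (cf y) f` at `y` (induction on `f`). With `r = z.2.1.length` lists and
`H v = z.2.2.getD (∑ j, if v j then 2 ^ j else 0) false` we get `outK`. -/
def CklStmt : Prop := ∀ (z : Circuit) (k s s' : ℕ),
  ListsJ z.1 (k * s + s') z.2.1.length fun K t h b => outK z k s s' K t h b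

/-- **CKT.** `scan` overlooks only few assignments.

Proof. For `Q : Finset (Fin n)` and `σ x : Fin n → Bool` let `mix Q σ x` be `σ` on `Q` and `x`
elsewhere. Say that `scan` is exhausted if it stops because `s = 0` or because the budget `s'` of
`rdl` is `0`; if `Holds r F` and `scan` gives `none`, then it is exhausted (it never finds a false
clause). Let `M` be the number of the clauses of `F` with more than `k` literals and
`g s s' M = (1 - 1/2^k)^s + 3^M (2/3)^s'`. Claim: for all `F`, `s`, `s'`, `Q`, `σ`, the probability
over `x` that `scan` for `F`, `s`, `s'`, the list `Q` and the assignment `mix Q σ x` is exhausted is at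
most `g s s' M`. Induction on `F`. Let `C` be the first clause. Whether it is known to be true
depends only on `σ`, `Q`. If it is, use the induction hypothesis. Otherwise all literals of `C` with
variables in `Q` or `≥ n` are false, and no two literals with other variables are opposite. (a) Let
`C` have at most `k` literals. If `s = 0`, the bound is `≥ 1`. Let `s > 0` and let `V` be the set of
the variables of `C` which are `< n` and not in `Q`; exactly one assignment of `V` makes `C` false,
and `|V| ≤ k`. By Fubini (`x` and a second copy `y` of it: `mix Q σ x` has the same distribution as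
`mix (Q ∪ V) (mix Q σ y) x`) the probability is the average over `y` of the conditional
probabilities: it is `0` if `y` makes `C` false on `V`, which has the probability
`2 ^ (-|V|) ≥ 1/2^k`, and at most `g (s-1) s' M` by the induction hypothesis otherwise; and
`(1 - 1/2^k) g (s-1) s' M ≤ g s s' M`. (b) Let `C` be longer, so `M = M' + 1`, `M'` the number for the
other clauses. Second induction, on the list of the literals of `C` which remain to be read (for all
`s'`, `Q`, `σ` with the above property): the probability of exhaustion is at most `g s s' (M' + 1)`.
No literal left: `0`. A literal with a variable in `Q` or `≥ n` is false. Otherwise, if `s' = 0`, the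
bound is `≥ 3^(M'+1) ≥ 1`; if `s' > 0`, the variable is true for the literal with probability `1/2`,
then the induction hypothesis for `F` gives `g s (s'-1) M'`, and otherwise
the second induction gives `g s (s'-1) (M'+1)` (condition on this variable, as in (a), with `|V| = 1`);
and `(g s (s'-1) M' + g s (s'-1) (M'+1))/2 = (1-1/2^k)^s + 3^(M'+1) (2/3)^(s'-1) (1/6 + 1/2)
= g s s' (M'+1)`. -/
def CktStmt : Prop := ∀ (n k s s' : ℕ) (F : List Clause),
  pr (fun r : Fin n → Bool => Holds r F ∧ scan n k (cf r) F s s' [] = none) ≤
    (1 - 1 / 2 ^ k) ^ s +
      3 ^ (F.filter fun C => decide (k < C.length)).length * (2 / 3 : ℝ) ^ s'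

/-- **CKE.** The circuit and its approximation. (May assume `CksStmt`, `CktStmt`.)

Proof. For `K = 0` the condition `okq` is always true. If no test `F` of the circuit satisfies
`Holds r F ∧ scan n k (cf r) F s s' [] = none`, then `val r f = vlK ...` for all lists `f` (by CKS (1)
`scan` succeeds iff `Holds`), so `out z r = outK ...`. Union bound over all tests: the number of the
tests is at most `size z`. -/
def CkeStmt : Prop := ∀ (z : Circuit) (k s s' : ℕ), Narrow k z →
  |pr (fun r : Fin z.1 → Bool => outK z k s s' 0 0 (fun _ => 0) (cf r) = true) -
    (cnt z : ℝ) / 2 ^ z.1| ≤ (size z : ℝ) * ((1 - 1 / 2 ^ k) ^ s +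
      3 ^ (k * (Nat.log 2 (size z) + 1)) * (2 / 3 : ℝ) ^ s')

/-- **CKP.** Polynomial time. (Model: `Pool.Agent.Helper37.DT.PTR`, `Pool.Agent.Helper16.AO.PTM`.)

Proof. `rdl` as a fold over the literals, `scan` as a fold over the clauses, with a state
`Option (ℕ × ℕ × List ℕ)`; the length of the list is at most the number of all literals. `vlK`, `ixK`
by recursion over lists (`ixK` is less than `2 ^ z.2.1.length`, which is not polynomial: compute
instead the entry of the truth table by halving it: keep of the table `T` the entries with the
numbers `≡ digit mod 2`, one digit after the other; `T.getD (ε + 2 i) false = (the list of the entries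
number ε, ε + 2, ... of T).getD i false`). `size` is in `PolyTime` as well. -/
def CkpStmt : Prop := (∀ (k : ℕ) (s s' : Circuit → ℕ), PolyTime s → PolyTime s' →
    PolyR fun (z : Circuit) K t h b => outK z k (s z) (s' z) K t h b) ∧
  PolyTime (fun z : Circuit => size z) ∧ PolyTime (fun z : Circuit => z.1)

/-- **CKF.** Counting. (May assume `GejStmt`, `CklStmt`, `CkeStmt`, `CkpStmt`.)

Proof. Let `N = size z`, `L = lg N`, `s z = 2 ^ k * ((c + 4) * L)`, `s' z = (2 c + 8 + 4 k) * L`. Then
`(1 - 1/2^k) ^ s ≤ exp (-(c+4) L) ≤ 2 ^ (-(c+4) L)`, and `3 ^ (k (log₂ N + 1)) ≤ 2 ^ (2 k L)`,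
`(2/3) ^ s' ≤ 2 ^ (-s'/2)` (as `4/9 ≤ 1/2`), so `3 ^ (...) (2/3) ^ s' ≤ 2 ^ (-(c+4) L)`; and `N < 2 ^ L`,
so the error of CKE is at most `2 * 2 ^ (-(c+3) L) ≤ 1/(4 L ^ c)` (`2 ^ (c L) ≥ L ^ c`,
`2 ^ (3 L) ≥ 8`). GEJ with `m z = z.1 ≤ size z`, `c1 = k * 2 ^ k * (c + 4) + (2 c + 8 + 4 k)` (by CKL
the width is `k s + s' = c1 * L`), `e`, and `c0 = c + 2`: the error is at most
`1/L^(c+2) ≤ 1/(4 L^c)`. Replace the value `f` in units of `1/L^(c+2)` by the nearest integer in
units of `1/L^c`, `(2 f + L^2) / (2 L^2)`: the total error is at most `(1/2 + 1/4 + 1/4)/L^c`.
(`lg N = Nat.log 2 N + 2`; `PolyTimeComputable` from `PolyTime` as in `Pool.Agent.Helper89.DT.All`,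
`Pool.Agent.Helper58.DT.LST`.) -/
def CkfStmt : Prop := ∀ c k e : ℕ, Counts c k e

/-- **CKG.** Languages. (May assume `CkfStmt`; adapt `Pool.Agent.Helper61.DT.GAP`,
`Pool.Agent.Helper78.AO.mga`.)

Proof. Let `L` be in `P`, decided by `f` (`PT_of_inP`). Let `D x` be the circuit `(0, [], [f x])`:
no variables, no lists (`0 ^ (e+1) ≤ ...`), and the truth table `[f x]`: `idx = 0`, so `cnt (D x)` is
`1` if `x ∈ L` and `0` otherwise; `g = 0`, and `1 ≤ (Nat.log 2 x.length + 2) ^ c`.
Conversely let `D`, `g` be given, `D x = (n, l, T)`, and pad the truth table by `|x|` entries `false`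
at the end: `D' x = (n, l, T ++ List.replicate |x| false)`. The index `idx` may be `≥ T.length`, where
the value was also `false`, so `out` and `cnt` do not change; `size (D' x) = size (D x) + |x| ≥ |x|`,
so `Narrow k` is kept and `(Nat.log 2 |x| + 2) ^ e ≤ (Nat.log 2 (size (D' x)) + 2) ^ e`. Apply CKF
with `c + 2` to `D' x`; with `l = Nat.log 2 |x| + 2 ≤ l' = Nat.log 2 (size (D' x)) + 2` the error is at
most `1/l'^(c+2) ≤ 1/(4 l^c)`, so `x ∈ L` iff `(2 g x + 1)/(2 l^c) ≤ f (D' x)/l'^(c+2)`, which is
decidable in `PolyTime` (`inP_of_PT`). -/
def CkgStmt : Prop := ∀ (c k e : ℕ) (L : Set (List Bool)), InP L ↔ Decided c k e L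

end Pool.Agent.Helper78.JT
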