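import Pool.Agent.Helper78.AO.Goals

/-!
# Tuples of decision lists; the chain of samplers; the parameters
-/

namespace Pool.Agent.Helper78.JT

open Pool.Agent.Helper78.DT
open scoped Classical

section
variable {V : Type} [Fintype V] [DecidableEq V] {r : ℕ}

/-- One of the exceptional events of the short decision lists `g j` happens. -/
def BadJ (t : ℕ) (k : ℝ) (g : Fin r → DL V) (x : V → Bool) : Prop := ∃ j, Bad t k (g j) x

/-- The lower end of the bracket of `H (f 0, f 1, ...)`. -/
def loJ (H : (Fin r → Bool) → Bool) (t : ℕ) (k : ℝ) (g : Fin r → DL V) (x : V → Bool) : Prop :=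
  H (fun j => ev (g j) x) = true ∧ ¬ BadJ t k g x

/-- The upper end of the bracket. -/
def hiJ (H : (Fin r → Bool) → Bool) (t : ℕ) (k : ℝ) (g : Fin r → DL V) (x : V → Bool) : Prop :=
  H (fun j => ev (g j) x) = true ∨ BadJ t k g x

end

/-- The variables which occur in a tuple of decision lists. -/
def varsJ {V : Type} {r : ℕ} (g : Fin r → DL V) : Set V := {v | ∃ j, v ∈ vars (g j)}

/-- The strings `z 0, ..., z (q - 1)` are good for `H` and all tuples of lists of width `t` and length
`≤ s` over `P` variables. -/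
def GoodJ (P q r t s : ℕ) (κ δ : ℝ) (H : (Fin r → Bool) → Bool) (z : ℕ → ℕ → Bool) : Prop :=
  ∀ g : Fin r → DL (Fin P), (∀ j, Wid t (g j) ∧ (g j).length ≤ s) →
    |pr (fun a : Fin q => loJ H t κ g fun u => z a u) - pr (loJ H t κ g)| ≤ δ ∧
    |pr (fun a : Fin q => hiJ H t κ g fun u => z a u) - pr (hiJ H t κ g)| ≤ δ

/-! ### The chain of polynomials -/

/-- The number of the seeds of the first `l` polynomials: the polynomial number `j` has `d j`
coefficients modulo `R j`. -/
def Zl (R d : ℕ → ℕ) : ℕ → ℕ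
  | 0 => 1
  | l + 1 => Zl R d l * R l ^ d l

/-- The value of the composition of the first `l` polynomials at `a`; the coefficients are the
digits of `θ`. -/
def ch (R d : ℕ → ℕ) (θ a : ℕ) : ℕ → ℕ
  | 0 => a
  | l + 1 => pv (R l) (d l) (dg (R l) (θ / Zl R d l)) (ch R d θ a l)

/-- The bit `u` of the string coded by the number `y`: its first `D` digits in base `P` are the
coefficients of a polynomial modulo `P`. -/
def sb (P D y u : ℕ) : Bool := decide (2 * pv P D (dg P y) u < P)

/-- The coin with the name `v`: `A` gives the partition, `z` the strings, `s j` codes the pair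
`(a, w)` of the number of the string and of the hash parameter for the part `j`, as `a * P + w`. -/
def cnj (z : ℕ → ℕ → Bool) (P K t e : ℕ) (A s : ℕ → ℕ) (v : ℕ) : Bool :=
  z (s (pt P K t e A v) / P) (hs P e (s (pt P K t e A v) % P) v)

/-- The error for one part. -/
noncomputable def erj (P r t s e : ℕ) (η κ δ : ℝ) : ℝ :=
  δ + ((r * (t * s) : ℕ) : ℝ) ^ 2 * e / P + r * ((s + 1) * (κ ^ (1 - η) * (2 / η) ^ t))

/-! ### The parameters

They are functions of `L = lg N` and of the constants `c` (the error is `1 / L ^ c`), `e` (the number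
of the lists is at most `L ^ (e / (e + 1))`), `a`, `β` (chosen as functions of `c`, `e`). -/

/-- a constant -/
def bb (a e : ℕ) : ℕ := (e + 1) * (e + 2) * (a + 5)

/-- the width `t` in one part -/
def tj (a e L : ℕ) : ℕ := Nat.log 2 L / bb a e

/-- the unit `U`; the logarithms of the moduli are the powers of `U` -/
def Uj (a e L : ℕ) : ℕ := 2 ^ ((e + 1) * (a + 5) * tj a e L)

/-- the number `K` of the parts -/
def Kj (c a β e L : ℕ) : ℕ := 2 ^ β * (6 * WW c L / (tj a e L + 1) + 1)

/-- the number `q` of the strings -/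
def qj (c L : ℕ) : ℕ := 2 ^ 18 * L ^ (2 * c + 8)

/-- the prime `P` -/
def Pj (c L : ℕ) : ℕ := np (L ^ (c + 8))

/-- the primes of the chain -/
def Rj (a e L j : ℕ) : ℕ := np (2 ^ (Uj a e L ^ (j + 1)))

/-- the sizes of the domains of the chain -/
def Mj (c a e L : ℕ) : ℕ → ℕ
  | 0 => qj c L
  | j + 1 => Rj a e L j

/-- half the exponents of the moments -/
def kj (a e L j : ℕ) : ℕ := 2 * Uj a e L ^ (e + 1 - j)

/-- the numbers of the coefficients -/
def dj (a e L j : ℕ) : ℕ := 4 * Uj a e L ^ (e + 1 - j)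

/-- the bound `D` for the number of the variables of a tuple -/
def Dj (a e L : ℕ) : ℕ := 2 ^ (tj a e L * (a + 2) + (tj a e L + 1) * (e * (e + 2) * (a + 5)))

/-- the length `s` of the short lists -/
def sj (a e L : ℕ) : ℕ := 2 ^ (tj a e L * (a + 1))

/-- the threshold `κ` -/
noncomputable def κj (a e L : ℕ) : ℝ := 2 ^ tj a e L / 2 ^ (tj a e L * 2 ^ (a - 1))

/-- the error of one sampler -/
noncomputable def δj (c L : ℕ) : ℝ := 1 / (64 * (L : ℝ) ^ (c + 3))

/-- the failure probability of one sampler for one test -/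
noncomputable def εj (a e L : ℕ) : ℝ := 1 / 2 ^ (Uj a e L ^ (e + 1))

/-- The number of the seeds. -/
def ZZj (c a β e L : ℕ) : ℕ :=
  Pj c L ^ (tj a e L + 2) * Zl (Rj a e L) (dj a e L) (e + 1) * (qj c L * Pj c L) ^ Kj c a β e L

/-- The number of the seeds of the chain, with powers cut off at `cap`. -/
def Zlc (cap : ℕ) (R d : ℕ → ℕ) : ℕ → ℕ
  | 0 => 1
  | l + 1 => Zlc cap R d l * cpw cap (R l) (d l)

/-- The number of the seeds, computed with powers cut off at `cap`. -/
def Zcj (cap c a β e L : ℕ) : ℕ :=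
  cpw cap (Pj c L) (tj a e L + 2) * Zlc cap (Rj a e L) (dj a e L) (e + 1) *
    cpw cap (qj c L * Pj c L) (Kj c a β e L)

end Pool.Agent.Helper78.JT
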